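import Pool.Agent.TH198.AT.Conv

/-!
# The entropy identity at `m = 1` (AT-LAM)
-/

set_option autoImplicit false

open MeasureTheory ProbabilityTheory Set Filter Topology

namespace Pool.TH147.AT

open Pool.TH198.AT

/-- integrability under the Gaussian measure of functions of exponential growth -/
theorem integ {F : ℝ → ℝ} (hF : Continuous F) {C K : ℝ} (hC : ∀ x, |F x| ≤ C * Real.exp (K * |x|))
    (x σ : ℝ) : Integrable (fun y => F (x + σ * y)) (gaussianReal 0 1) := by
  have hC0 : 0 ≤ C := by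
    have h := (abs_nonneg _).trans (hC 0)
    rw [abs_zero, mul_zero, Real.exp_zero, mul_one] at h
    exact h
  have h1 : Integrable (fun y : ℝ => C * Real.exp (|K| * |x|) *
      (Real.exp ((|K| * |σ|) * y) + Real.exp (-(|K| * |σ|) * y))) (gaussianReal 0 1) :=
    ((integrable_exp_mul_gaussianReal _).add (integrable_exp_mul_gaussianReal _)).const_mul _
  refine h1.mono' (hF.comp (by fun_prop)).aestronglyMeasurable (Eventually.of_forall fun y => ?_)
  rw [Real.norm_eq_abs]
  refine (hC _).trans ?_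
  rw [mul_assoc]
  refine mul_le_mul_of_nonneg_left ?_ hC0
  have h2 : K * |x + σ * y| ≤ |K| * |x| + (|K| * |σ|) * |y| := by
    calc K * |x + σ * y| ≤ |K| * |x + σ * y| :=
          mul_le_mul_of_nonneg_right (le_abs_self K) (abs_nonneg _)
      _ ≤ |K| * (|x| + |σ * y|) := mul_le_mul_of_nonneg_left (abs_add_le _ _) (abs_nonneg _)
      _ = |K| * |x| + (|K| * |σ|) * |y| := by rw [abs_mul]; ring
  refine (Real.exp_le_exp.2 h2).trans ?_
  rw [Real.exp_add]
  refine mul_le_mul_of_nonneg_left ?_ (Real.exp_pos _).le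
  rcases abs_cases y with ⟨h, _⟩ | ⟨h, _⟩
  · rw [h]
    linarith [Real.exp_pos (-(|K| * |σ|) * y)]
  · rw [h, show |K| * |σ| * -y = -(|K| * |σ|) * y by ring]
    linarith [Real.exp_pos ((|K| * |σ|) * y)]

theorem E1_exp (t : ℝ) : E1 (fun y => Real.exp (t * y)) = Real.exp (t ^ 2 / 2) := by
  unfold E1
  have h := congrFun (mgf_fun_id_gaussianReal (μ := 0) (v := 1)) t
  unfold mgf at h
  rw [h]
  congr 1
  simp

theorem E1_cosh (x σ : ℝ) :
    E1 (fun y => Real.cosh (x + σ * y)) = Real.cosh x * Real.exp (σ ^ 2 / 2) := by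
  have h1 : (fun y => Real.cosh (x + σ * y)) = fun y =>
      Real.exp x / 2 * Real.exp (σ * y) + Real.exp (-x) / 2 * Real.exp (-σ * y) := by
    funext y
    rw [Real.cosh_eq, Real.exp_add, neg_add, Real.exp_add, neg_mul]
    ring
  have h2 : E1 (fun y => Real.exp x / 2 * Real.exp (σ * y) + Real.exp (-x) / 2 * Real.exp (-σ * y))
      = Real.exp x / 2 * E1 (fun y => Real.exp (σ * y)) +
        Real.exp (-x) / 2 * E1 (fun y => Real.exp (-σ * y)) := by
    unfold E1
    rw [integral_add ((integrable_exp_mul_gaussianReal _).const_mul _)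
      ((integrable_exp_mul_gaussianReal _).const_mul _), integral_const_mul, integral_const_mul]
  rw [h1, h2, E1_exp, E1_exp, Real.cosh_eq]
  rw [neg_sq]
  ring

/-- `g = cosh * log cosh` -/
noncomputable def g (x : ℝ) : ℝ := Real.cosh x * Real.log (Real.cosh x)

noncomputable def g1 (x : ℝ) : ℝ := Real.sinh x * Real.log (Real.cosh x) + Real.sinh x

noncomputable def g2 (x : ℝ) : ℝ := g x + 2 * Real.cosh x - sech x

theorem cosh_le (x : ℝ) : Real.cosh x ≤ Real.exp |x| := by
  rw [← Real.cosh_abs, Real.cosh_eq]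
  have h : Real.exp (-|x|) ≤ Real.exp |x| := Real.exp_le_exp.2 (by linarith [abs_nonneg x])
  linarith

theorem sinh_le (x : ℝ) : |Real.sinh x| ≤ Real.exp |x| := by
  refine le_trans ?_ (cosh_le x)
  rw [abs_le]
  constructor
  · have := Real.exp_pos x
    rw [Real.cosh_eq, Real.sinh_eq]
    linarith
  · have := Real.exp_pos (-x)
    rw [Real.cosh_eq, Real.sinh_eq]
    linarith

theorem lc_nonneg (x : ℝ) : 0 ≤ Real.log (Real.cosh x) := Real.log_nonneg (Real.one_le_cosh x)

theorem lc_le (x : ℝ) : Real.log (Real.cosh x) + 1 ≤ Real.exp |x| := by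
  have h1 : Real.log (Real.cosh x) ≤ |x| := by
    rw [Real.log_le_iff_le_exp (Real.cosh_pos x)]
    exact cosh_le x
  have h2 := Real.add_one_le_exp |x|
  linarith

theorem sech_pos (x : ℝ) : 0 < sech x := inv_pos.2 (Real.cosh_pos x)

theorem sech_le (x : ℝ) : sech x ≤ 1 := inv_le_one_of_one_le₀ (Real.one_le_cosh x)

theorem g_abs (x : ℝ) : |g x| ≤ Real.exp (2 * |x|) := by
  unfold g
  rw [abs_mul, abs_of_pos (Real.cosh_pos x), abs_of_nonneg (lc_nonneg x),
    show 2 * |x| = |x| + |x| by ring, Real.exp_add]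
  exact mul_le_mul (cosh_le x) (by linarith [lc_le x]) (lc_nonneg x) (Real.exp_pos _).le

theorem g1_abs (x : ℝ) : |g1 x| ≤ Real.exp (2 * |x|) := by
  unfold g1
  rw [show Real.sinh x * Real.log (Real.cosh x) + Real.sinh x =
    Real.sinh x * (Real.log (Real.cosh x) + 1) by ring, abs_mul,
    abs_of_nonneg (show 0 ≤ Real.log (Real.cosh x) + 1 by linarith [lc_nonneg x]),
    show 2 * |x| = |x| + |x| by ring, Real.exp_add]
  exact mul_le_mul (sinh_le x) (lc_le x) (by linarith [lc_nonneg x]) (Real.exp_pos _).le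

theorem exp_le (x : ℝ) : Real.exp |x| ≤ Real.exp (2 * |x|) :=
  Real.exp_le_exp.2 (by linarith [abs_nonneg x])

theorem one_le_exp (x : ℝ) : 1 ≤ Real.exp (2 * |x|) :=
  Real.one_le_exp (by positivity)

theorem g2_abs (x : ℝ) : |g2 x| ≤ 4 * Real.exp (2 * |x|) := by
  unfold g2
  have h1 := abs_le.1 (g_abs x)
  have h2 := (cosh_le x).trans (exp_le x)
  have h3 := Real.cosh_pos x
  have h4 := sech_pos x
  have h5 := (sech_le x).trans (one_le_exp x)
  rw [abs_le]
  constructor <;> linarith [h1.1, h1.2]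

theorem expC2 : ExpC2 g g1 g2 := by
  refine ⟨fun x => ?_, fun x => ?_, ?_, 4, 2, fun x => ⟨?_, ?_, g2_abs x⟩⟩
  · have h := (Real.hasDerivAt_cosh x).mul
      ((Real.hasDerivAt_cosh x).log (Real.cosh_pos x).ne')
    refine h.congr_deriv ?_
    unfold g1
    have := (Real.cosh_pos x).ne'
    field_simp
  · have h := ((Real.hasDerivAt_sinh x).mul
      ((Real.hasDerivAt_cosh x).log (Real.cosh_pos x).ne')).add (Real.hasDerivAt_sinh x)
    refine h.congr_deriv ?_
    unfold g2 g sech
    have h1 := (Real.cosh_pos x).ne'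
    have h2 := Real.cosh_sq x
    field_simp
    nlinarith
  · unfold g2 g sech
    have h : ∀ x, Real.cosh x ≠ 0 := fun x => (Real.cosh_pos x).ne'
    exact ((Real.continuous_cosh.mul (Real.continuous_cosh.log h)).add
      (Real.continuous_cosh.const_mul 2)).sub (Real.continuous_cosh.inv₀ h)
  · linarith [g_abs x, one_le_exp x]
  · linarith [g1_abs x, one_le_exp x]

theorem g_cont : Continuous g :=
  Real.continuous_cosh.mul (Real.continuous_cosh.log fun x => (Real.cosh_pos x).ne')

theorem sech_cont : Continuous sech :=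
  Real.continuous_cosh.inv₀ fun x => (Real.cosh_pos x).ne'

theorem E1_g2 (x σ : ℝ) : E1 (fun y => g2 (x + σ * y)) =
    E1 (fun y => g (x + σ * y)) + 2 * (Real.cosh x * Real.exp (σ ^ 2 / 2)) -
      E1 (fun y => sech (x + σ * y)) := by
  rw [← E1_cosh]
  have i1 : Integrable (fun y => g (x + σ * y)) (gaussianReal 0 1) :=
    integ g_cont (C := 1) (K := 2) (fun x => by rw [one_mul]; exact g_abs x) x σ
  have i2 : Integrable (fun y => Real.cosh (x + σ * y)) (gaussianReal 0 1) :=
    integ Real.continuous_cosh (C := 1) (K := 1) (fun x => by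
      rw [one_mul, one_mul, abs_of_pos (Real.cosh_pos x)]; exact cosh_le x) x σ
  have i3 : Integrable (fun y => sech (x + σ * y)) (gaussianReal 0 1) :=
    integ sech_cont (C := 1) (K := 0) (fun x => by
      rw [zero_mul, Real.exp_zero, one_mul, abs_of_pos (sech_pos x)]; exact sech_le x) x σ
  have k1 : ∫ y, (g (x + σ * y) + 2 * Real.cosh (x + σ * y) - sech (x + σ * y)) ∂(gaussianReal 0 1)
      = ∫ y, (g (x + σ * y) + 2 * Real.cosh (x + σ * y)) ∂(gaussianReal 0 1) -
        ∫ y, sech (x + σ * y) ∂(gaussianReal 0 1) := integral_sub (i1.add (i2.const_mul 2)) i3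
  have k2 : ∫ y, (g (x + σ * y) + 2 * Real.cosh (x + σ * y)) ∂(gaussianReal 0 1)
      = ∫ y, g (x + σ * y) ∂(gaussianReal 0 1) +
        ∫ y, 2 * Real.cosh (x + σ * y) ∂(gaussianReal 0 1) := integral_add i1 (i2.const_mul 2)
  show ∫ y, (g (x + σ * y) + 2 * Real.cosh (x + σ * y) - sech (x + σ * y)) ∂(gaussianReal 0 1) =
    ∫ y, g (x + σ * y) ∂(gaussianReal 0 1) + 2 * ∫ y, Real.cosh (x + σ * y) ∂(gaussianReal 0 1) -
      ∫ y, sech (x + σ * y) ∂(gaussianReal 0 1)
  rw [k1, k2, integral_const_mul]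

theorem t_LAM (hH : St_HEATE) : St_LAM := by
  obtain ⟨-, -, hv, c0, -, c2⟩ := hH g g1 g2 expC2
  intro v x hv0
  have hsq : ∀ w : ℝ, 0 ≤ w → (√w) ^ 2 = w := fun w hw => Real.sq_sqrt hw
  -- the function `L'(1)`
  have hLP : ∀ w : ℝ, 0 ≤ w → LP 1 w x =
      E1 (fun y => g (x + √w * y)) / (Real.cosh x * Real.exp (w / 2)) := by
    intro w hw
    unfold LP
    simp only [Real.rpow_one]
    rw [E1_cosh, hsq w hw]
    rfl
  have hS : ∀ w : ℝ, 0 ≤ w → E1 (fun y => sech (x + √w * y)) =
      E1 (fun y => g (x + √w * y)) + 2 * (Real.cosh x * Real.exp (w / 2)) -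
        E1 (fun y => g2 (x + √w * y)) := by
    intro w hw
    rw [E1_g2, hsq w hw]
    ring
  have cg : Continuous (fun w : ℝ => E1 (fun y => g (x + √w * y))) :=
    c0.comp (Continuous.prodMk continuous_const continuous_id)
  have cg2 : Continuous (fun w : ℝ => E1 (fun y => g2 (x + √w * y))) :=
    c2.comp (Continuous.prodMk continuous_const continuous_id)
  have cD : Continuous (fun w : ℝ => Real.cosh x * Real.exp (w / 2)) := by fun_prop
  have hD : ∀ w : ℝ, 0 < Real.cosh x * Real.exp (w / 2) := fun w =>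
    mul_pos (Real.cosh_pos x) (Real.exp_pos _)
  have cKK : ContinuousOn (fun w => KK w x) (Icc 0 v) := by
    have h1 : Continuous (fun w : ℝ => 1 - Real.exp (-w / 2) * sech x *
        (E1 (fun y => g (x + √w * y)) + 2 * (Real.cosh x * Real.exp (w / 2)) -
        E1 (fun y => g2 (x + √w * y)))) := by
      refine continuous_const.sub (Continuous.mul (by fun_prop) ?_)
      exact (cg.add (cD.const_mul 2)).sub cg2
    refine h1.continuousOn.congr fun w hw => ?_
    unfold KK
    rw [hS w hw.1]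
  have cLP : ContinuousOn (fun w => LP 1 w x) (Icc 0 v) := by
    have h1 : Continuous (fun w : ℝ =>
        E1 (fun y => g (x + √w * y)) / (Real.cosh x * Real.exp (w / 2))) :=
      cg.div cD fun w => (hD w).ne'
    exact h1.continuousOn.congr fun w hw => hLP w hw.1
  have hder : ∀ w ∈ Ioo 0 v, HasDerivAt (fun w => LP 1 w x) (1 / 2 + KK w x / 2) w := by
    intro w hw
    have h1 := hv x w hw.1
    have h2 : HasDerivAt (fun w : ℝ => Real.cosh x * Real.exp (w / 2))
        (Real.cosh x * (Real.exp (w / 2) * (1 / 2))) w :=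
      (((hasDerivAt_id w).div_const 2).exp).const_mul _
    have h3 := h1.div h2 (hD w).ne'
    have h4 : (fun w => LP 1 w x) =ᶠ[𝓝 w] fun w : ℝ =>
        E1 (fun y => g (x + √w * y)) / (Real.cosh x * Real.exp (w / 2)) := by
      filter_upwards [lt_mem_nhds hw.1] with u hu
      exact hLP u hu.le
    refine (h3.congr_of_eventuallyEq h4).congr_deriv ?_
    unfold KK
    rw [E1_g2, hsq w hw.1.le]
    have e1 : Real.exp (-w / 2) = (Real.exp (w / 2))⁻¹ := by
      rw [← Real.exp_neg]
      congr 1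
      ring
    rw [e1]
    have h5 := (Real.exp_pos (w / 2)).ne'
    have h6 := (Real.cosh_pos x).ne'
    rw [show sech x = (Real.cosh x)⁻¹ from rfl]
    field_simp
    ring
  have hint : IntervalIntegrable (fun w => 1 / 2 + KK w x / 2) volume 0 v := by
    refine ContinuousOn.intervalIntegrable ?_
    rw [uIcc_of_le hv0]
    exact continuousOn_const.add (cKK.div_const 2)
  have hFTC := intervalIntegral.integral_eq_sub_of_hasDerivAt_of_le hv0 cLP hder hint
  have h0 : LP 1 0 x = Real.log (Real.cosh x) := by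
    rw [hLP 0 le_rfl]
    simp only [Real.sqrt_zero, zero_mul, add_zero, zero_div, Real.exp_zero, mul_one]
    unfold E1 g
    rw [integral_const]
    simp only [probReal_univ, one_smul]
    rw [mul_div_cancel_left₀ _ (Real.cosh_pos x).ne']
  have hKi : IntervalIntegrable (fun w => KK w x) volume 0 v := by
    refine ContinuousOn.intervalIntegrable ?_
    rw [uIcc_of_le hv0]
    exact cKK
  refine ⟨?_, ?_⟩
  · rw [intervalIntegral.integral_add (by simp) (hKi.div_const 2),
      intervalIntegral.integral_const, intervalIntegral.integral_div, h0, smul_eq_mul] at hFTC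
    linarith
  · unfold UH
    simp only [Real.rpow_one]
    rw [E1_cosh, hsq v hv0, Real.log_mul (Real.cosh_pos x).ne' (Real.exp_pos _).ne', Real.log_exp]
    ring

end Pool.TH147.AT
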